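import Mathlib
import Pool.Agent.H19.Baum3

set_option autoImplicit false

namespace Pool.Agent.Results.MP_66ce2c_al.Counterexample

/-- A parafree group `P` (residually nilpotent, with the lower central quotients of the free group
of rank two) with normal subgroups refuting both Q1 and Q2. -/
theorem result : ∃ (P : Type) (_ : Group P),
    (⨅ n, (⊤ : Subgroup P).lowerCentralSeries n = ⊥) ∧
    (∀ n, Nonempty (P ⧸ (⊤ : Subgroup P).lowerCentralSeries n ≃*
      FreeGroup (Fin 2) ⧸ (⊤ : Subgroup (FreeGroup (Fin 2))).lowerCentralSeries n)) ∧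
    (∃ (N : Subgroup P) (_ : N.Normal),
      (∀ x : Abelianization N, IsOfFinOrder x → x = 1) ∧
      ∃ g : P ⧸ ⁅N, N⁆, g ≠ 1 ∧ IsOfFinOrder g) ∧
    (∃ (N : Subgroup P) (_ : N.Normal),
      (∀ x : Abelianization N, IsOfFinOrder x → x = 1) ∧
      (∀ x : P ⧸ N, IsOfFinOrder x → x = 1) ∧
      ∃ (x y : P ⧸ ⁅N, N⁆) (n : ℕ), 1 ≤ n ∧ x ^ n = y ^ n ∧ x ≠ y) :=
  ⟨Pool.Agent.H19.Baum.G, inferInstance, Pool.Agent.H19.Baum.resNil, Pool.Agent.H19.Baum.parafree,
    Pool.Agent.H19.Baum.Q1, Pool.Agent.H19.Baum.Q2⟩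

end Pool.Agent.Results.MP_66ce2c_al.Counterexample
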